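import Pool.Agent.KS6_80.BW.B

/-!
# The segment game is a Breaker win as soon as `b(t)` grows faster than `(log t)^4`

The game, winning line segments, `τ_n` (`IsTau`) and Maker wins (`MakerWin`) are defined in
`Pool/Graph/R_seed8/R183/PL/Game.lean`; `BreakerWin` in `Pool/Agent/KS6_80/BW/B.lean`.
-/

open Filter Topology

namespace Pool.Agent.Results.MP_7018e1_co.BreakerWinPolylog

open Pool.Agent.R183.PL Pool.Agent.KS6_80.BW

/-- The threshold exponent `β_c(α)`, with values in the extended reals: the supremum of the real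
numbers `β` for which the game with `m(t) = ⌊t^α⌋` and `b(t) = ⌊t^β⌋` is a Maker win. -/
noncomputable def betaC (α : ℝ) : EReal :=
  sSup {x : EReal | ∃ β : ℝ, x = (β : EReal) ∧
    MakerWin (fun t => ⌊(t : ℝ) ^ α⌋₊) (fun t => ⌊(t : ℝ) ^ β⌋₊)}

theorem floor_near (x : ℝ) (hx : 0 ≤ x) : |((⌊x⌋₊ : ℕ) : ℝ) - x| ≤ 1 := by
  have h1 := Nat.floor_le hx
  have h2 := (Nat.lt_floor_add_one x).le
  rw [abs_le]
  constructor <;> linarith

theorem pow_floor_div {α : ℝ} (hα : 0 < α) :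
    Tendsto (fun t : ℕ => (⌊(t : ℝ) ^ α⌋₊ : ℝ) / (t : ℝ) ^ α) atTop (𝓝 1) :=
  (tendsto_nat_floor_div_atTop (R := ℝ)).comp
    ((tendsto_rpow_atTop hα).comp tendsto_natCast_atTop_atTop)

theorem mono_pow {α : ℝ} (hα : 0 < α) : Monotone (fun t : ℕ => ⌊(t : ℝ) ^ α⌋₊) := by
  intro s t hst
  apply Nat.floor_mono
  exact Real.rpow_le_rpow (by positivity) (by exact_mod_cast hst) hα.le

/-- `⌊t^α⌋ ≥ t^α / 2` eventually -/
theorem half_le {α : ℝ} (hα : 0 < α) : ∀ᶠ t : ℕ in atTop,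
    (t : ℝ) ^ α / 2 ≤ (⌊(t : ℝ) ^ α⌋₊ : ℝ) := by
  filter_upwards [(pow_floor_div hα).eventually (lt_mem_nhds (show (1 : ℝ) / 2 < 1 by norm_num)),
    eventually_ge_atTop 1] with t ht ht1
  have h0 : (0 : ℝ) < (t : ℝ) ^ α := Real.rpow_pos_of_pos (by exact_mod_cast ht1) _
  rw [lt_div_iff₀ h0] at ht
  linarith

theorem low_pow {α : ℝ} (hα : 0 < α) : ∃ c : ℕ, ∀ᶠ t : ℕ in atTop, t ≤ ⌊(t : ℝ) ^ α⌋₊ ^ c := by
  obtain ⟨c, hc⟩ := exists_nat_ge (2 / α)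
  refine ⟨c, ?_⟩
  have h1 : Tendsto (fun t : ℕ => (t : ℝ) ^ (α / 2)) atTop atTop :=
    (tendsto_rpow_atTop (by positivity)).comp tendsto_natCast_atTop_atTop
  filter_upwards [half_le hα, h1.eventually (eventually_ge_atTop 2), eventually_ge_atTop 1]
    with t h2 h3 h4
  have ht : (1 : ℝ) ≤ t := by exact_mod_cast h4
  have h5 : (t : ℝ) ^ (α / 2) ≤ ⌊(t : ℝ) ^ α⌋₊ := by
    refine le_trans ?_ h2
    have h6 : (t : ℝ) ^ α = (t : ℝ) ^ (α / 2) * (t : ℝ) ^ (α / 2) := by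
      rw [← Real.rpow_add (by linarith)]
      congr 1
      ring
    rw [h6]
    nlinarith
  have h7 : (t : ℝ) ≤ (⌊(t : ℝ) ^ α⌋₊ : ℝ) ^ c := by
    calc (t : ℝ) = (t : ℝ) ^ (1 : ℝ) := (Real.rpow_one _).symm
      _ ≤ (t : ℝ) ^ (α / 2 * c) := by
          apply Real.rpow_le_rpow_of_exponent_le ht
          rw [div_le_iff₀ hα] at hc
          linarith
      _ = ((t : ℝ) ^ (α / 2)) ^ c := by
          rw [Real.rpow_mul (by linarith), Real.rpow_natCast]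
      _ ≤ _ := pow_le_pow_left₀ (by positivity) h5 _
  exact_mod_cast h7

theorem up_pow (α : ℝ) : ∃ a : ℕ, ∀ᶠ t : ℕ in atTop, ⌊(t : ℝ) ^ α⌋₊ ≤ t ^ a := by
  obtain ⟨a, ha⟩ := exists_nat_ge α
  refine ⟨a, ?_⟩
  filter_upwards [eventually_ge_atTop 1] with t h4
  have ht : (1 : ℝ) ≤ t := by exact_mod_cast h4
  have h1 : (⌊(t : ℝ) ^ α⌋₊ : ℝ) ≤ (t : ℝ) ^ a := by
    calc (⌊(t : ℝ) ^ α⌋₊ : ℝ) ≤ (t : ℝ) ^ α := Nat.floor_le (by positivity)
      _ ≤ (t : ℝ) ^ (a : ℝ) := Real.rpow_le_rpow_of_exponent_le ht ha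
      _ = (t : ℝ) ^ a := Real.rpow_natCast _ _
  exact_mod_cast h1

theorem ratio_pow {α : ℝ} (hα : 0 < α) :
    Tendsto (fun t : ℕ => ((⌊((t + 1 : ℕ) : ℝ) ^ α⌋₊ : ℕ) : ℝ) / ((⌊(t : ℝ) ^ α⌋₊ : ℕ) : ℝ)) atTop
      (𝓝 1) := by
  have h1 := (pow_floor_div hα).comp (tendsto_add_atTop_nat 1)
  have h2 := pow_floor_div hα
  have h3 : Tendsto (fun t : ℕ => (((t + 1 : ℕ) : ℝ) / t) ^ α) atTop (𝓝 1) := by
    have h4 : Tendsto (fun t : ℕ => ((t + 1 : ℕ) : ℝ) / t) atTop (𝓝 1) := by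
      have h5 : Tendsto (fun t : ℕ => 1 + 1 / (t : ℝ)) atTop (𝓝 (1 + 0)) :=
        tendsto_const_nhds.add tendsto_one_div_atTop_nhds_zero_nat
      rw [add_zero] at h5
      refine h5.congr' ?_
      filter_upwards [eventually_ge_atTop 1] with t ht
      have : (t : ℝ) ≠ 0 := by
        have : 0 < t := ht
        exact_mod_cast this.ne'
      push_cast
      field_simp
    have h6 := h4.rpow_const (p := α) (Or.inl one_ne_zero)
    rwa [Real.one_rpow] at h6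
  have h7 := (h1.mul h3).div h2 one_ne_zero
  rw [mul_one, div_one] at h7
  refine h7.congr' ?_
  filter_upwards [eventually_ge_atTop 1, half_le hα] with t ht hh
  have ht0 : (0 : ℝ) < t := by exact_mod_cast ht
  have ht1 : (0 : ℝ) < ((t + 1 : ℕ) : ℝ) := by positivity
  have e1 : (0 : ℝ) < (t : ℝ) ^ α := Real.rpow_pos_of_pos ht0 _
  have e2 : (0 : ℝ) < ((t + 1 : ℕ) : ℝ) ^ α := Real.rpow_pos_of_pos ht1 _
  have e3 : (0 : ℝ) < (⌊(t : ℝ) ^ α⌋₊ : ℝ) := lt_of_lt_of_le (by positivity) hh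
  simp only [Function.comp, Pi.div_apply]
  rw [Real.div_rpow ht1.le ht0.le]
  field_simp

theorem pow_div_log {β : ℝ} (hβ : 0 < β) :
    Tendsto (fun t : ℕ => (⌊(t : ℝ) ^ β⌋₊ : ℝ) / (Real.log t) ^ 4) atTop atTop := by
  have h1 : (fun x : ℝ => Real.log x ^ (4 : ℝ)) =o[atTop] fun x => x ^ β :=
    isLittleO_log_rpow_rpow_atTop 4 hβ
  have h2 := h1.tendsto_div_nhds_zero
  have h3 : Tendsto (fun x : ℝ => x ^ β / (2 * Real.log x ^ 4)) atTop atTop := by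
    have h4 : Tendsto (fun x : ℝ => 2 * (Real.log x ^ (4 : ℝ) / x ^ β)) atTop (𝓝[>] 0) := by
      rw [tendsto_nhdsWithin_iff]
      refine ⟨by simpa using h2.const_mul 2, ?_⟩
      filter_upwards [eventually_gt_atTop 1] with x hx
      have h5 : 0 < Real.log x := Real.log_pos hx
      have h6 : 0 < x ^ β := Real.rpow_pos_of_pos (by linarith) _
      have h7 : 0 < Real.log x ^ (4 : ℝ) := Real.rpow_pos_of_pos h5 _
      exact Set.mem_Ioi.2 (by positivity)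
    refine h4.inv_tendsto_nhdsGT_zero.congr' ?_
    filter_upwards [eventually_gt_atTop 1] with x hx
    have h7 : Real.log x ^ (4 : ℝ) = Real.log x ^ 4 := by
      exact_mod_cast Real.rpow_natCast (Real.log x) 4
    simp only [Pi.inv_apply]
    rw [h7, mul_div_assoc', inv_div]
  refine tendsto_atTop_mono' _ ?_ (h3.comp tendsto_natCast_atTop_atTop)
  filter_upwards [half_le hβ, eventually_ge_atTop 2] with t ht ht2
  have h5 : 0 < Real.log t := Real.log_pos (by exact_mod_cast ht2)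
  simp only [Function.comp]
  rw [div_le_div_iff₀ (by positivity) (by positivity)]
  have h6 : 0 < Real.log t ^ 4 := by positivity
  nlinarith

/-- **The segment game is a Breaker win for `b(t) = ω((log t)^4)`.**

(1) Let `m` be monotone with `t ≤ m(t)^c` and `m(t) ≤ t^a` for all large `t` (for some `c`, `a`)
and `m(t+1)/m(t) → 1`, and let `b(t)/(log t)^4 → ∞`. Then the game `(m, b)` is a Breaker win:
`m(τ_n)/n → 1`.
(2) In particular this holds for `m(t) = ⌊t^α⌋`, `α > 0` real.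
(3) For all `α, β > 0` the game with `m(t) = ⌊t^α⌋`, `b(t) = ⌊t^β⌋` is a Breaker win.
(4) For `α ≤ 0 < β` and all large `n` Maker can never force a winning line segment in this game.
(5) Hence `β_c(α) ≤ 0` for every real `α`. -/
theorem result :
    (∀ (m b : ℕ → ℕ), Monotone m → (∃ c : ℕ, ∀ᶠ t : ℕ in atTop, t ≤ m t ^ c) →
      (∃ a : ℕ, ∀ᶠ t : ℕ in atTop, m t ≤ t ^ a) →
      Tendsto (fun t : ℕ => (m (t + 1) : ℝ) / m t) atTop (𝓝 1) →
      Tendsto (fun t : ℕ => (b t : ℝ) / (Real.log t) ^ 4) atTop atTop → BreakerWin m b) ∧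
    (∀ (α : ℝ) (b : ℕ → ℕ), 0 < α →
      Tendsto (fun t : ℕ => (b t : ℝ) / (Real.log t) ^ 4) atTop atTop →
      BreakerWin (fun t => ⌊(t : ℝ) ^ α⌋₊) b) ∧
    (∀ α β : ℝ, 0 < α → 0 < β → BreakerWin (fun t => ⌊(t : ℝ) ^ α⌋₊) (fun t => ⌊(t : ℝ) ^ β⌋₊)) ∧
    (∀ α β : ℝ, α ≤ 0 → 0 < β → ∃ N : ℕ, ∀ n, N ≤ n → ∀ T : ℕ,
      ¬ MakerBy (fun t => ⌊(t : ℝ) ^ α⌋₊) (fun t => ⌊(t : ℝ) ^ β⌋₊) n T) ∧
    ∀ α : ℝ, betaC α ≤ 0 := by
  have key1 : ∀ (m b : ℕ → ℕ), Monotone m → (∃ c : ℕ, ∀ᶠ t : ℕ in atTop, t ≤ m t ^ c) →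
      (∃ a : ℕ, ∀ᶠ t : ℕ in atTop, m t ≤ t ^ a) →
      Tendsto (fun t : ℕ => (m (t + 1) : ℝ) / m t) atTop (𝓝 1) →
      Tendsto (fun t : ℕ => (b t : ℝ) / (Real.log t) ^ 4) atTop atTop → BreakerWin m b := by
    rintro m b hm ⟨c, hc⟩ ⟨a, ha⟩ hr hb
    exact breakerWin m b hm c hc a ha hr hb
  have key2 : ∀ (α : ℝ) (b : ℕ → ℕ), 0 < α →
      Tendsto (fun t : ℕ => (b t : ℝ) / (Real.log t) ^ 4) atTop atTop →
      BreakerWin (fun t => ⌊(t : ℝ) ^ α⌋₊) b := fun α b hα hb =>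
    key1 _ b (mono_pow hα) (low_pow hα) (up_pow α) (ratio_pow hα) hb
  have key3 : ∀ α β : ℝ, 0 < α → 0 < β →
      BreakerWin (fun t => ⌊(t : ℝ) ^ α⌋₊) (fun t => ⌊(t : ℝ) ^ β⌋₊) := fun α β hα hβ =>
    key2 α _ hα (pow_div_log hβ)
  have key4 : ∀ α β : ℝ, α ≤ 0 → 0 < β → ∃ N : ℕ, ∀ n, N ≤ n → ∀ T : ℕ,
      ¬ MakerBy (fun t => ⌊(t : ℝ) ^ α⌋₊) (fun t => ⌊(t : ℝ) ^ β⌋₊) n T := by
    intro α β hα hβ
    have hm : ∀ t : ℕ, ⌊(t : ℝ) ^ α⌋₊ ≤ 1 := by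
      intro t
      have h1 : (t : ℝ) ^ α ≤ 1 := by
        rcases Nat.eq_zero_or_pos t with rfl | ht
        · rcases hα.eq_or_lt with h0 | h0
          · rw [h0]
            simp
          · rw [Nat.cast_zero, Real.zero_rpow h0.ne]
            exact zero_le_one
        · exact Real.rpow_le_one_of_one_le_of_nonpos (by exact_mod_cast ht) hα
      have h2 : ((⌊(t : ℝ) ^ α⌋₊ : ℕ) : ℝ) ≤ 1 :=
        (Nat.floor_le (Real.rpow_nonneg (Nat.cast_nonneg t) α)).trans h1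
      exact_mod_cast h2
    obtain ⟨N, hN⟩ := epochs (m := fun t => ⌊(t : ℝ) ^ α⌋₊) hβ hm
      (fun t => floor_near _ (Real.rpow_nonneg (Nat.cast_nonneg t) β))
    refine ⟨N, fun n hn T h => ?_⟩
    obtain ⟨e⟩ := hN n hn
    exact not_forces e T 1 ∅ ∅ e.hT0 (by simp) (by simp) h
  refine ⟨key1, key2, key3, key4, fun α => ?_⟩
  refine sSup_le ?_
  rintro x ⟨β, rfl, hwin⟩
  by_contra hcon
  push Not at hcon
  have hβ : 0 < β := by exact_mod_cast hcon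
  rcases lt_or_ge 0 α with hα | hα
  · exact (key3 α β hα hβ).not_makerWin hwin
  · obtain ⟨N, hN⟩ := key4 α β hα hβ
    obtain ⟨ε, _, hev⟩ := hwin
    obtain ⟨n, ⟨τ, h1, _⟩, h2⟩ := (hev.and (eventually_ge_atTop N)).exists
    exact hN n h2 τ h1.1

end Pool.Agent.Results.MP_7018e1_co.BreakerWinPolylog
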